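import Pool.Agent.H346.QC.Stm
import Pool.Graph.R_seed8.Y470.SM.QIH

set_option autoImplicit false

/-!
# Job QC: quasi-convex subgroups containing a normalised hyperbolic element
-/

namespace Pool.Agent.H811.QC

open Pool.Agent.H322R3.Hyp Pool.Agent.TH54.BU Pool.Agent.H346.QC

section word

variable {G : Type} [Group G] {S S' : Set G}

lemma wlen_eq_zero (hS : Subgroup.closure S = ⊤) {g : G} (h : wlen S g = 0) : g = 1 := by
  obtain ⟨l, h1, -, h3⟩ := wlen_spec hS g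
  rw [h, List.length_eq_zero_iff] at h1
  rw [← h3, h1, List.prod_nil]

lemma wlen_step (hS : Subgroup.closure S = ⊤) (g : G) (k : ℕ) (hk : k ≤ wlen S g) :
    ∃ p, wlen S p = k ∧ wlen S (p⁻¹ * g) + k = wlen S g := by
  obtain ⟨l, h1, h2, h3⟩ := wlen_spec hS g
  have a1 := wlen_le (S := S) (l.take k) (fun x hx => h2 x (List.mem_of_mem_take hx))
  have a2 := wlen_le (S := S) (l.drop k) (fun x hx => h2 x (List.mem_of_mem_drop hx))
  have a3 : (l.take k).prod * (l.drop k).prod = g := by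
    rw [List.prod_take_mul_prod_drop, h3]
  have a4 : (l.take k).prod⁻¹ * g = (l.drop k).prod := by rw [← a3]; group
  rw [List.length_take] at a1
  rw [List.length_drop] at a2
  have a5 := wlen_mul_le hS (l.take k).prod (l.drop k).prod
  rw [a3] at a5
  refine ⟨(l.take k).prod, ?_, ?_⟩
  · omega
  · rw [a4]; omega

lemma dm (hS : Subgroup.closure S = ⊤) : DM (fun u v : G => wlen S (u⁻¹ * v)) where
  self u := by show wlen S (u⁻¹ * u) = 0; rw [inv_mul_cancel, wlen_one]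
  eq u v h := inv_mul_eq_one.1 (wlen_eq_zero hS h)
  comm u v := by
    show wlen S (u⁻¹ * v) = wlen S (v⁻¹ * u)
    rw [← wlen_inv hS]; congr 1; group
  tri u v w := by
    have := wlen_mul_le hS (u⁻¹ * v) (v⁻¹ * w)
    rwa [show u⁻¹ * v * (v⁻¹ * w) = u⁻¹ * w by group] at this
  btw u v k hk := by
    obtain ⟨p, h1, h2⟩ := wlen_step hS (u⁻¹ * v) k hk
    refine ⟨u * p, ?_, ?_⟩
    · show wlen S (u⁻¹ * (u * p)) = k
      rw [inv_mul_cancel_left, h1]
    · show wlen S ((u * p)⁻¹ * v) + k = _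
      rw [show (u * p)⁻¹ * v = p⁻¹ * (u⁻¹ * v) by group]
      exact h2

lemma four_of_hyp (hS : Subgroup.closure S = ⊤) (h : IsHyperbolic S) :
    ∃ D : ℕ, Four (fun u v : G => wlen S (u⁻¹ * v)) D := by
  obtain ⟨δ, hδ⟩ := h
  refine ⟨⌈2 * δ⌉₊, ?_⟩
  intro u v w z
  have h1 := hδ z u w v
  have hc := Nat.le_ceil (2 * δ)
  unfold gprod wdist at h1
  have c1 : wlen S (w⁻¹ * v) = wlen S (v⁻¹ * w) := (dm hS).comm w v
  rw [c1] at h1
  have key : ((wlen S (u⁻¹ * v) : ℕ) : ℝ) + (wlen S (w⁻¹ * z) : ℕ) ≤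
      max (((wlen S (u⁻¹ * w) : ℕ) : ℝ) + (wlen S (v⁻¹ * z) : ℕ))
        (((wlen S (u⁻¹ * z) : ℕ) : ℝ) + (wlen S (v⁻¹ * w) : ℕ)) + (⌈2 * δ⌉₊ : ℕ) := by
    have m1 := le_max_left (((wlen S (u⁻¹ * w) : ℕ) : ℝ) + (wlen S (v⁻¹ * z) : ℕ))
        (((wlen S (u⁻¹ * z) : ℕ) : ℝ) + (wlen S (v⁻¹ * w) : ℕ))
    have m2 := le_max_right (((wlen S (u⁻¹ * w) : ℕ) : ℝ) + (wlen S (v⁻¹ * z) : ℕ))
        (((wlen S (u⁻¹ * z) : ℕ) : ℝ) + (wlen S (v⁻¹ * w) : ℕ))
    rcases min_choice (((wlen S (u⁻¹ * z) : ℕ) + (wlen S (w⁻¹ * z) : ℕ) -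
        (wlen S (u⁻¹ * w) : ℕ) : ℝ) / 2)
      (((wlen S (w⁻¹ * z) : ℕ) + (wlen S (v⁻¹ * z) : ℕ) - (wlen S (v⁻¹ * w) : ℕ) : ℝ) / 2)
      with h2 | h2
    · rw [h2] at h1
      linarith
    · rw [h2] at h1
      linarith
  exact_mod_cast key

lemma wlen_compare (hf : S.Finite) (hS : Subgroup.closure S = ⊤)
    (hS' : Subgroup.closure S' = ⊤) : ∃ C : ℕ, 1 ≤ C ∧ ∀ g, wlen S' g ≤ C * wlen S g := by
  refine ⟨hf.toFinset.sup (wlen S') + 1, by omega, ?_⟩
  set C := hf.toFinset.sup (wlen S') + 1 with hC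
  have key : ∀ l : List G, (∀ x ∈ l, x ∈ S ∨ x⁻¹ ∈ S) → wlen S' l.prod ≤ C * l.length := by
    intro l
    induction l with
    | nil => intro _; simp [wlen_one]
    | cons x l ih =>
      intro h
      have h1 := ih (fun y hy => h y (List.mem_cons_of_mem _ hy))
      have h2 := wlen_mul_le hS' x l.prod
      have h3 : wlen S' x ≤ C := by
        rcases h x List.mem_cons_self with hx | hx
        · have := Finset.le_sup (f := wlen S') (hf.mem_toFinset.2 hx)
          omega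
        · have := Finset.le_sup (f := wlen S') (hf.mem_toFinset.2 hx)
          rw [wlen_inv hS'] at this
          omega
      rw [List.prod_cons, List.length_cons, Nat.mul_succ]
      omega
  intro g
  obtain ⟨l, h1, h2, h3⟩ := wlen_spec hS g
  have := key l h2
  rw [h3, h1] at this
  exact this

/-- change of the generating set -/
lemma four_change {S0 : Set G} (hf0 : S0.Finite) (hS0 : Subgroup.closure S0 = ⊤)
    (hf : S.Finite) (hS : Subgroup.closure S = ⊤) (h : IsHyperbolic S0) :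
    ∃ D : ℕ, Four (fun u v : G => wlen S (u⁻¹ * v)) D := by
  obtain ⟨D0, h0⟩ := four_of_hyp hS0 h
  obtain ⟨C1, hC1, h1⟩ := wlen_compare hf hS hS0
  obtain ⟨C2, hC2, h2⟩ := wlen_compare hf0 hS0 hS
  have up : ∀ a : ℕ, a ≤ ((a + C1 - 1) / C1) * C1 := by
    intro a
    have := Nat.lt_div_mul_add (show 0 < C1 by omega) (a := a + C1 - 1)
    omega
  have dn : ∀ a : ℕ, ((a + C1 - 1) / C1) * C1 ≤ a + C1 := by
    intro a
    have := Nat.div_mul_le_self (a + C1 - 1) C1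
    omega
  refine Pool.Agent.Y470.SM.t G (fun u v => (wlen S0 (u⁻¹ * v) + C1 - 1) / C1)
    (fun u v => wlen S (u⁻¹ * v)) (Pool.Agent.Y470.SM.dm_scale (dm hS0) (by omega)) (dm hS)
    (C2 * C1) (D0 + 2) ?_ ?_ ?_
  · intro u v
    show (wlen S0 (u⁻¹ * v) + C1 - 1) / C1 ≤ wlen S (u⁻¹ * v)
    rw [← Nat.lt_succ_iff, Nat.div_lt_iff_lt_mul (by omega), Nat.succ_mul, Nat.mul_comm]
    have := h1 (u⁻¹ * v)
    omega
  · intro u v
    show wlen S (u⁻¹ * v) ≤ C2 * C1 * ((wlen S0 (u⁻¹ * v) + C1 - 1) / C1)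
    have a1 := h2 (u⁻¹ * v)
    have a2 := Nat.mul_le_mul_left C2 (up (wlen S0 (u⁻¹ * v)))
    have a3 : C2 * C1 * ((wlen S0 (u⁻¹ * v) + C1 - 1) / C1) =
      C2 * ((wlen S0 (u⁻¹ * v) + C1 - 1) / C1 * C1) := by ring
    omega
  · intro u v w z
    have h3 := h0 u v w z
    simp only at h3 ⊢
    have a1 := dn (wlen S0 (u⁻¹ * v))
    have a2 := dn (wlen S0 (w⁻¹ * z))
    have b1 := up (wlen S0 (u⁻¹ * w))
    have b2 := up (wlen S0 (v⁻¹ * z))
    have b3 := up (wlen S0 (u⁻¹ * z))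
    have b4 := up (wlen S0 (v⁻¹ * w))
    set x1 := (wlen S0 (u⁻¹ * v) + C1 - 1) / C1
    set x2 := (wlen S0 (w⁻¹ * z) + C1 - 1) / C1
    set y1 := (wlen S0 (u⁻¹ * w) + C1 - 1) / C1
    set y2 := (wlen S0 (v⁻¹ * z) + C1 - 1) / C1
    set y3 := (wlen S0 (u⁻¹ * z) + C1 - 1) / C1
    set y4 := (wlen S0 (v⁻¹ * w) + C1 - 1) / C1
    have m1 := le_max_left (y1 + y2) (y3 + y4)
    have m2 := le_max_right (y1 + y2) (y3 + y4)
    set m := max (y1 + y2) (y3 + y4)
    by_contra hcon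
    push Not at hcon
    have e1 : (m + (D0 + 2) + 1) * C1 ≤ (x1 + x2) * C1 := Nat.mul_le_mul_right C1 hcon
    have e2 : (y1 + y2) * C1 ≤ m * C1 := Nat.mul_le_mul_right C1 m1
    have e3 : (y3 + y4) * C1 ≤ m * C1 := Nat.mul_le_mul_right C1 m2
    have e4 : (m + (D0 + 2) + 1) * C1 = m * C1 + D0 * C1 + 3 * C1 := by ring
    have e5 : D0 * 1 ≤ D0 * C1 := Nat.mul_le_mul_left D0 hC1
    have e6 : (x1 + x2) * C1 = x1 * C1 + x2 * C1 := Nat.add_mul _ _ _
    have e7 : (y1 + y2) * C1 = y1 * C1 + y2 * C1 := Nat.add_mul _ _ _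
    have e8 : (y3 + y4) * C1 = y3 * C1 + y4 * C1 := Nat.add_mul _ _ _
    rw [e4, e6] at e1
    rw [e7] at e2
    rw [e8] at e3
    rcases le_total (wlen S0 (u⁻¹ * w) + wlen S0 (v⁻¹ * z))
      (wlen S0 (u⁻¹ * z) + wlen S0 (v⁻¹ * w)) with hm | hm
    · rw [max_eq_right hm] at h3
      omega
    · rw [max_eq_left hm] at h3
      omega

/-- the word metric as a hyperbolic length -/
noncomputable def gh (hS : Subgroup.closure S = ⊤) (D : ℕ)
    (h : Four (fun u v : G => wlen S (u⁻¹ * v)) D) : GH G where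
  len := wlen S
  D := D
  len_one := wlen_one
  eq_one := fun _ hg => wlen_eq_zero hS hg
  len_inv := fun g => wlen_inv hS g
  len_mul := wlen_mul_le hS
  fp' := h
  step := wlen_step hS

lemma ball_finite (hf : S.Finite) (hS : Subgroup.closure S = ⊤) (n : ℕ) :
    {g : G | wlen S g ≤ n}.Finite := by
  induction n with
  | zero =>
    apply (Set.finite_singleton (1 : G)).subset
    intro g hg
    exact wlen_eq_zero hS (Nat.le_zero.1 hg)
  | succ n ih =>
    have h1 : (S ∪ S⁻¹).Finite := hf.union hf.inv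
    apply ((ih.mul h1).union ih).subset
    intro g hg
    rcases Nat.lt_or_ge n (wlen S g) with h2 | h2
    · left
      obtain ⟨p, h3, h4⟩ := wlen_step hS g n h2.le
      have h5 : wlen S (p⁻¹ * g) = 1 := by
        have : wlen S g ≤ n + 1 := hg
        omega
      refine ⟨p, h3.le, p⁻¹ * g, ?_, by simp⟩
      obtain ⟨l, l1, l2, l3⟩ := wlen_spec hS (p⁻¹ * g)
      rw [h5, List.length_eq_one_iff] at l1
      obtain ⟨x, rfl⟩ := l1
      rw [List.prod_singleton] at l3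
      rw [← l3]
      rcases l2 x (by simp) with hx | hx
      · left; exact hx
      · right; exact hx
    · right; exact h2

end word

section geom

variable {G : Type} [Group G] (E : GH G)

lemma exp_beats (a b : ℕ) : ∃ i : ℕ, a + i * b < 2 ^ i := by
  refine ⟨2 * (a + 2 * b), ?_⟩
  have h1 : a + 2 * b + 1 ≤ 2 ^ (a + 2 * b) := Nat.lt_two_pow_self
  have h2 := Nat.mul_le_mul h1 h1
  rw [← pow_add, ← two_mul] at h2
  set m := a + 2 * b
  have h3 : (m + 1) * (m + 1) = m * m + 2 * m + 1 := by ring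
  have h4 : 2 * m * b ≤ m * m := by
    have : m * (2 * b) ≤ m * m := Nat.mul_le_mul_left m (by omega)
    calc 2 * m * b = m * (2 * b) := by ring
      _ ≤ _ := this
  have h5 : a ≤ m := by omega
  omega

/-- a power whose square is much longer -/
lemma exists_pow (c : G) (κ : ℕ) (h : ∀ n : ℕ, n ≤ κ * E.len (c ^ n)) :
    ∃ N : ℕ, E.len (c ^ N) + (2 * E.D + 1) ≤ E.len ((c ^ N) ^ 2) := by
  by_contra hcon
  push Not at hcon
  have h1 : ∀ i : ℕ, E.len (c ^ (2 ^ i)) ≤ E.len c + i * (2 * E.D + 1) := by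
    intro i
    induction i with
    | zero => simp
    | succ i ih =>
      have h2 := hcon (2 ^ i)
      rw [← pow_mul, ← pow_succ] at h2
      rw [Nat.succ_mul]
      omega
  obtain ⟨i, hi⟩ := exp_beats (κ * E.len c) (κ * (2 * E.D + 1))
  have h2 := h (2 ^ i)
  have h3 := Nat.mul_le_mul_left κ (h1 i)
  have h4 : κ * (E.len c + i * (2 * E.D + 1)) = κ * E.len c + i * (κ * (2 * E.D + 1)) := by ring
  omega

variable {g : G} (hg : E.len g + (2 * E.D + 1) ≤ E.len (g ^ 2))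

include hg

lemma growth (n : ℕ) : E.len (g ^ n) + (E.D + 1) ≤ E.len (g ^ (n + 1)) := by
  induction n with
  | zero =>
    have h1 := E.len_mul g g
    rw [← pow_two] at h1
    rw [pow_zero, E.len_one, zero_add, zero_add, pow_one]
    omega
  | succ n ih =>
    have h1 := E.fp' 1 (g ^ (n + 1)) (g ^ n) (g ^ (n + 2))
    have e1 : (1 : G)⁻¹ * g ^ (n + 1) = g ^ (n + 1) := by group
    have e2 : (g ^ n)⁻¹ * g ^ (n + 2) = g ^ 2 := by rw [pow_add]; group
    have e3 : (1 : G)⁻¹ * g ^ n = g ^ n := by group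
    have e4 : (g ^ (n + 1))⁻¹ * g ^ (n + 2) = g := by
      rw [pow_succ g (n + 1)]; group
    have e5 : (1 : G)⁻¹ * g ^ (n + 2) = g ^ (n + 1 + 1) := by group
    have e6 : E.len ((g ^ (n + 1))⁻¹ * g ^ n) = E.len g := by
      rw [← E.len_inv]
      congr 1
      rw [pow_succ]; group
    rw [e1, e2, e3, e4, e5, e6] at h1
    rcases le_total (E.len (g ^ n) + E.len g) (E.len (g ^ (n + 1 + 1)) + E.len g) with h2 | h2
    · rw [max_eq_right h2] at h1
      omega
    · rw [max_eq_left h2] at h1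
      omega

lemma pow_ge (n : ℕ) : n ≤ E.len (g ^ n) := by
  induction n with
  | zero => omega
  | succ n ih =>
    have := growth E hg n
    omega

lemma sup_pow (k : ℕ) :
    2 * E.len (g ^ k) ≤ E.d (g ^ k)⁻¹ (g ^ k) + (E.len g + E.D) := by
  rcases Nat.eq_zero_or_pos k with rfl | hk
  · simp [E.len_one]
  · obtain ⟨k, rfl⟩ : ∃ j, k = j + 1 := ⟨k - 1, by omega⟩
    have h1 := E.fp (g ^ (k + 1))⁻¹ g 1 (g ^ (k + 1))
    have e1 : E.d (g ^ (k + 1))⁻¹ g = E.len (g ^ (k + 1 + 1)) := by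
      unfold GH.d; congr 1; rw [inv_inv, ← pow_succ]
    have e2 : E.d 1 (g ^ (k + 1)) = E.len (g ^ (k + 1)) := E.d_one _
    have e3 : E.d (g ^ (k + 1))⁻¹ 1 = E.len (g ^ (k + 1)) := by
      unfold GH.d; congr 1; rw [inv_inv, mul_one]
    have e4 : E.d g (g ^ (k + 1)) = E.len (g ^ k) := by
      unfold GH.d; congr 1; rw [pow_succ']; group
    have e5 : E.d g 1 = E.len g := E.d_one' _
    rw [e1, e2, e3, e4, e5] at h1
    have g1 := growth E hg (k + 1)
    have g2 := growth E hg k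
    rcases le_total (E.len (g ^ (k + 1)) + E.len (g ^ k))
      (E.d (g ^ (k + 1))⁻¹ (g ^ (k + 1)) + E.len g) with h2 | h2
    · rw [max_eq_right h2] at h1
      omega
    · rw [max_eq_left h2] at h1
      omega

/-- the geodesic between `g^(-k) a` and `g^k a` passes near `1` -/
lemma near (a : G) : ∃ (k : ℕ) (x : G),
    E.d ((g ^ k)⁻¹ * a) x + E.d x (g ^ k * a) = E.d ((g ^ k)⁻¹ * a) (g ^ k * a) ∧
    E.len x ≤ E.len g + 4 * E.D + 1 := by
  set k := E.len g + 3 * E.D + 2 * E.len a + 1 with hk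
  refine ⟨k, ?_⟩
  have hα := pow_ge E hg k
  have hs := sup_pow E hg k
  set P := (g ^ k)⁻¹ with hP
  set Q := g ^ k with hQ
  set y := P * a with hy
  set z := Q * a with hz
  have p1 : E.d P 1 = E.len Q := by rw [E.d_one', hP, E.len_inv]
  have q1 : E.d Q 1 = E.len Q := E.d_one' _
  have py : E.d P y = E.len a := by rw [hy]; unfold GH.d; congr 1; group
  have qz : E.d Q z = E.len a := by rw [hz]; unfold GH.d; congr 1; group
  have y1 : E.d 1 y = E.len y := E.d_one _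
  have z1 : E.d 1 z = E.len z := E.d_one _
  have t1 := E.d_tri P y 1
  rw [p1, py, E.d_one'] at t1
  have t2 := E.d_tri Q z 1
  rw [q1, qz, E.d_one'] at t2
  have f1 := E.fp P Q 1 y
  rw [p1, q1, py, y1] at f1
  have f2 := E.fp y Q 1 z
  rw [q1, qz, E.d_one', z1] at f2
  have s1 : E.d Q y = E.d y Q := E.d_comm _ _
  have hyz : E.len y + E.len z ≤ E.d y z + (E.len g + E.D) + 2 * E.D := by
    rcases le_total (E.len Q + E.d Q y) (E.len a + E.len Q) with h2 | h2
    · rw [max_eq_right h2] at f1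
      omega
    · rw [max_eq_left h2] at f1
      rcases le_total (E.len y + E.len a) (E.d y z + E.len Q) with h3 | h3
      · rw [max_eq_right h3] at f2
        omega
      · rw [max_eq_left h3] at f2
        omega
  have t3 := E.d_tri 1 z y
  rw [y1, z1, E.d_comm z y] at t3
  have t4 := E.d_tri 1 y z
  rw [y1, z1] at t4
  obtain ⟨x, hx1, hx2⟩ := E.between y z ((E.len y + E.d y z - E.len z) / 2) (by omega)
  refine ⟨x, by omega, ?_⟩
  have f3 := E.fp 1 x y z
  rw [y1, z1, E.d_one x, E.d_comm x y] at f3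
  rcases le_total (E.len y + E.d x z) (E.len z + E.d y x) with h3 | h3
  · rw [max_eq_right h3] at f3
    omega
  · rw [max_eq_left h3] at f3
    omega

end geom

theorem t : S_QC := by
  intro G _ S0 hf0 hS0 hyp c κ hgr A B H hcB hAB hBH hqc
  obtain ⟨S, hf, hS, R, hR⟩ := hqc
  obtain ⟨D, hD⟩ := four_change hf0 hS0 hf hS hyp
  obtain ⟨C1, -, hC1⟩ := wlen_compare hf hS hS0
  set E := gh hS D hD with hE
  have hEl : ∀ g, E.len g = wlen S g := fun _ => rfl
  have hgr' : ∀ n : ℕ, n ≤ (κ * C1) * E.len (c ^ n) := by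
    intro n
    have h1 := hgr n
    have h2 := Nat.mul_le_mul_left κ (hC1 (c ^ n))
    rw [hEl, mul_assoc]
    exact h1.trans h2
  obtain ⟨N, hN⟩ := exists_pow E c _ hgr'
  set g := c ^ N with hg
  have hgB : ∀ k : ℕ, g ^ k ∈ B := fun k => B.pow_mem (B.pow_mem hcB N) k
  set K := E.len g + 4 * E.D + 1 + R with hK
  have key : ∀ a ∈ A, ∃ h ∈ H, wlen S (a * h) ≤ K := by
    intro a ha
    obtain ⟨k, x, hx1, hx2⟩ := near E hN a
    have m1 : a⁻¹ * ((g ^ k)⁻¹ * a) ∈ H := by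
      rw [← mul_assoc]
      exact hBH (hAB a ha _ (B.inv_mem (hgB k)))
    have m2 : a⁻¹ * (g ^ k * a) ∈ H := by
      rw [← mul_assoc]
      exact hBH (hAB a ha _ (hgB k))
    obtain ⟨h, hh1, hh2⟩ := hR _ m1 _ m2 (a⁻¹ * x) (by
      have e1 : (a⁻¹ * ((g ^ k)⁻¹ * a))⁻¹ * (a⁻¹ * x) = ((g ^ k)⁻¹ * a)⁻¹ * x := by group
      have e2 : (a⁻¹ * x)⁻¹ * (a⁻¹ * (g ^ k * a)) = x⁻¹ * (g ^ k * a) := by group
      have e3 : (a⁻¹ * ((g ^ k)⁻¹ * a))⁻¹ * (a⁻¹ * (g ^ k * a)) =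
        ((g ^ k)⁻¹ * a)⁻¹ * (g ^ k * a) := by group
      rw [e1, e2, e3]
      exact hx1)
    refine ⟨h, hh1, ?_⟩
    have h3 := wlen_mul_le hS x (x⁻¹ * (a * h))
    have e4 : x * (x⁻¹ * (a * h)) = a * h := by group
    have e5 : (a⁻¹ * x)⁻¹ * h = x⁻¹ * (a * h) := by group
    rw [e4] at h3
    rw [e5] at hh2
    rw [hEl x] at hx2
    omega
  have hfin : Finite (A ⧸ H.subgroupOf A) := by
    have hball := ball_finite hf hS K
    have : Finite {g : G | wlen S g ≤ K} := hball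
    choose! φ hφ1 hφ2 using key
    let F : (A ⧸ H.subgroupOf A) → {g : G | wlen S g ≤ K} := fun q =>
      ⟨(q.out : A) * φ (q.out : A), hφ2 _ q.out.2⟩
    apply Finite.of_injective F
    intro q q' hqq
    have h1 : ((q.out : A) : G) * φ (q.out : A) = (q'.out : A) * φ (q'.out : A) :=
      congrArg Subtype.val hqq
    rw [← QuotientGroup.out_eq' q, ← QuotientGroup.out_eq' q', QuotientGroup.eq,
      Subgroup.mem_subgroupOf]
    have h2 : (((q.out)⁻¹ * q'.out : A) : G) = φ (q.out : A) * (φ (q'.out : A))⁻¹ := by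
      rw [Subgroup.coe_mul, Subgroup.coe_inv, eq_mul_inv_iff_mul_eq, mul_assoc, ← h1,
        inv_mul_cancel_left]
    rw [h2]
    exact H.mul_mem (hφ1 _ q.out.2) (H.inv_mem (hφ1 _ q'.out.2))
  exact Subgroup.finiteIndex_of_finite_quotient

end Pool.Agent.H811.QC
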